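import Pool.Agent.H664.EX.Stm
import Pool.Graph.R_pool_sql_team_seeded_3997aac3.Q166.EG.Lift

/-!
Project EX (helper664), job OV: from `S_ov1` to points over a generic `w`.
-/

set_option autoImplicit false

namespace Pool.Agent.H249.EX

open MvPolynomial Pool.Agent.W996.EC Pool.Agent.Q72.EG Pool.Agent.H664.EX

section basic

variable {E : Type} [Field E] [Algebra ℂ E]

theorem al_mono {A B : Set E} (h : A ⊆ B) {f : E} (hf : Al A f) : Al B f := by
  have hle : IntermediateField.adjoin ℂ A ≤ IntermediateField.adjoin ℂ B :=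
    IntermediateField.adjoin.mono ℂ A B h
  exact IsAlgebraic.ringHom_of_comp_eq (IntermediateField.inclusion hle) (RingHom.id E) hf
    (IntermediateField.inclusion_injective hle) rfl

theorem al_sub (K : IntermediateField ℂ E) (A : Set K) (f : K)
    (h : Al (Subtype.val '' A) (f : E)) : Al A f := by
  have e := IntermediateField.lift_adjoin (F := ℂ) K A
  unfold Al at h
  rw [← e] at h
  exact (isAlgebraic_ringHom_iff_of_comp_eq
    (IntermediateField.liftAlgEquiv (IntermediateField.adjoin ℂ A)) (algebraMap K E)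
    (algebraMap K E).injective (by ext; rfl)).1 h

theorem trans_w {z w : E} (h : AlgebraicIndependent ℂ ![z, w]) :
    Transcendental (IntermediateField.adjoin ℂ ({z} : Set E)) w := by
  have h1 := h.transcendental_adjoin (s := {0}) (i := 1) (by simp)
  rw [Set.image_singleton] at h1
  exact IntermediateField.transcendental_adjoin_iff.2 h1

theorem trans_z {z w : E} (h : AlgebraicIndependent ℂ ![z, w]) : Transcendental ℂ z :=
  h.transcendental 0

theorem exists_K {z w : E} (h : AlgebraicIndependent ℂ ![z, w]) :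
    ∃ K : IntermediateField ℂ E, (∀ f : E, f ∈ K ↔ Al {z} f) ∧ Transcendental K w :=
  ⟨(algebraicClosure (IntermediateField.adjoin ℂ ({z} : Set E)) E).restrictScalars ℂ,
    fun _ => mem_algebraicClosure_iff, (trans_w h).algebraicClosure⟩

theorem aeval_coe {K : IntermediateField ℂ E} {τ : Type} (x : τ → K) (g : MvPolynomial τ ℂ) :
    aeval (fun i => (x i : E)) g = ((aeval x g : K) : E) := by
  have h1 : aeval (fun i => (x i : E)) = K.val.comp (aeval x) := by
    ext i
    simp
  rw [h1]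
  rfl

theorem coef_zero {K : IntermediateField ℂ E} {w : E} (hw : Transcendental K w) {n : ℕ}
    (x : Fin n → K) (g : MvPolynomial (Option (Fin n)) ℂ)
    (hg : aeval (oe w (fun i => (x i : E))) g = 0) (j : ℕ) : aeval x (cf g j) = 0 := by
  have h1 : Polynomial.aeval w ((optionEquivLeft ℂ (Fin n) g).map
      (aeval x : MvPolynomial (Fin n) ℂ →ₐ[ℂ] K).toRingHom) = 0 := by
    rw [← hg, aeval_oe, Polynomial.aeval_def, Polynomial.eval₂_map]
    congr 1
    ext i
    · simp
    · simp
  have h2 := transcendental_iff.1 hw _ h1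
  have h3 := congrArg (fun p => Polynomial.coeff p j) h2
  simp only [Polynomial.coeff_map, Polynomial.coeff_zero] at h3
  exact h3

theorem pt_val {σ κ : Type} {ξ : σ → E} {k : κ → E} {p : σ → ℂ} {q : κ → ℂ}
    (h : Sum.elim p q ∈ Pt (Sum.elim ξ k)) (i : κ) (g : MvPolynomial σ ℂ)
    (hg : aeval ξ g = k i) : q i = eval p g := by
  have h1 := h (rename Sum.inl g - X (Sum.inr i)) (by
    rw [map_sub, aeval_rename, aeval_X, Sum.elim_comp_inl, hg, Sum.elim_inr, sub_self])
  rw [map_sub, eval_rename, eval_X, Sum.elim_comp_inl, Sum.elim_inr] at h1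
  exact (sub_eq_zero.1 h1).symm

end basic

/-- JOB OV -/
theorem ov (h : S_ov1) : S_ov := by
  intro E _ _ z θ y w hind hθ hy hy0 hyc hlin Q hQ
  classical
  obtain ⟨K, memK, hw⟩ := exists_K hind
  have hzA : Al {z} z := by
    exact isAlgebraic_algebraMap (⟨z, IntermediateField.subset_adjoin ℂ _ rfl⟩ :
      IntermediateField.adjoin ℂ ({z} : Set E))
  obtain ⟨zK, hz⟩ : ∃ a : K, (a : E) = z := ⟨⟨z, (memK z).2 hzA⟩, rfl⟩
  obtain ⟨θK, hθK⟩ : ∃ a : K, (a : E) = θ := ⟨⟨θ, (memK θ).2 hθ⟩, rfl⟩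
  obtain ⟨yK, hyK⟩ : ∃ a : K, (a : E) = y := ⟨⟨y, (memK y).2 hy⟩, rfl⟩
  have hx : (fun i => ((![zK, θK, yK] : Fin 3 → K) i : E)) = ![z, θ, y] := by
    funext i
    fin_cases i
    · exact hz
    · exact hθK
    · exact hyK
  -- the lifting of points
  have halg : ∀ k : Option Q, IsAlgebraic (IntermediateField.adjoin ℂ (Set.range (oe w ![z, θ, y])))
      ((fun o : Option Q => o.elim (1 : E) (fun k => (k : E))) k) := by
    intro k
    rcases k with _ | k
    · exact isAlgebraic_one
    · refine al_mono (A := {z, w}) ?_ (hQ k k.2)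
      rintro a (rfl | rfl)
      · exact ⟨some 0, rfl⟩
      · exact ⟨none, rfl⟩
  obtain ⟨A, H, hH, -, hrel, hlift⟩ := Pool.Agent.Q166.EG.lift0 E (Option (Fin 3)) (Option Q)
    (oe w ![z, θ, y]) (fun o => o.elim (1 : E) (fun k => (k : E))) none halg
  -- the coefficients of `H`
  obtain ⟨N, hN⟩ : ∃ N, N = (optionEquivLeft ℂ (Fin 3) H).natDegree + 1 := ⟨_, rfl⟩
  obtain ⟨c, hc⟩ : ∃ c : ℕ → K, ∀ j, c j = aeval ![zK, θK, yK] (cf H j) := ⟨_, fun _ => rfl⟩
  obtain ⟨F, hF⟩ : ∃ F : Finset ℕ, F = (Finset.range N).filter fun j => c j ≠ 0 := ⟨_, rfl⟩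
  have hFne : F.Nonempty := by
    by_contra hne
    rw [Finset.not_nonempty_iff_eq_empty] at hne
    apply hH
    rw [aeval_oe_sum, ← hN]
    refine Finset.sum_eq_zero fun j hj => ?_
    have h1 : c j = 0 := by
      by_contra h2
      have h3 : j ∈ F := by rw [hF]; exact Finset.mem_filter.2 ⟨hj, h2⟩
      rw [hne] at h3
      exact absurd h3 (Finset.notMem_empty j)
    rw [← hx, aeval_coe, ← hc, h1]
    simp
  have hFc : ∀ b ∈ F, c b ≠ 0 ∧ c b ∈ F.image c := fun b hb =>
    ⟨by rw [hF] at hb; exact (Finset.mem_filter.1 hb).2, Finset.mem_image_of_mem c hb⟩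
  -- the point
  obtain ⟨z₀, θ₀, q, hpt, hne⟩ := h K zK θK yK (by
      intro ha
      apply trans_z hind
      rw [← hz]
      exact ha.algebraMap) (by
      intro f
      refine al_sub K _ f ?_
      rw [Set.image_singleton, hz]
      exact (memK f).1 f.2) (by
      intro h0
      apply hy0
      rw [← hyK, h0]
      rfl) (by
      intro a ha
      apply hyc a
      rw [← hyK, ha]
      rfl) (by
      intro m₁ m₂ hm a ha
      apply hlin m₁ m₂ hm a
      rw [← hz, ← hθK]
      have := congrArg (fun t : K => (t : E)) ha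
      simpa using this) F c (F.image c) hFne hFc
  have hx0 : ![z₀, θ₀, Complex.exp z₀] ∈ Pt ![zK, θK, yK] :=
    Pool.Agent.Q166.EG.pt_comp hpt Sum.inl
  have hqc : ∀ b ∈ F, q (c b) = eval ![z₀, θ₀, Complex.exp z₀] (cf H b) := fun b hb =>
    pt_val hpt ⟨c b, (hFc b hb).2⟩ (cf H b) (hc b).symm
  -- the point over `w`
  have ht : oe (Complex.exp θ₀) ![z₀, θ₀, Complex.exp z₀] ∈ Pt (oe w ![z, θ, y]) := by
    intro g hg
    rw [eval_oe_sum]
    refine Finset.sum_eq_zero fun j _ => ?_
    rw [← hx] at hg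
    rw [hx0 _ (coef_zero hw _ g hg j), zero_mul]
  have htH : eval (oe (Complex.exp θ₀) ![z₀, θ₀, Complex.exp z₀]) H ≠ 0 := by
    rw [eval_oe_sum, ← hN]
    intro h0
    apply hne
    rw [← h0, hF, Finset.sum_filter]
    refine Finset.sum_congr rfl fun j hj => ?_
    by_cases hcj : c j = 0
    · rw [if_neg (by simpa using hcj), hx0 _ (by rw [← hc, hcj]), zero_mul]
    · rw [if_pos hcj, hqc j (by rw [hF]; exact Finset.mem_filter.2 ⟨hj, hcj⟩)]
  have hroot : (A.map (eval (oe (Complex.exp θ₀) ![z₀, θ₀, Complex.exp z₀]))).eval 1 = 0 := by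
    rw [Polynomial.eval_one_map]
    apply ht
    have h1 : (A.map (aeval (oe w ![z, θ, y]) :
      MvPolynomial (Option (Fin 3)) ℂ →ₐ[ℂ] E).toRingHom).eval 1 = 0 := hrel
    rw [Polynomial.eval_one_map] at h1
    exact h1
  obtain ⟨p, hp, hp1, -⟩ := hlift _ ht htH 1 hroot
  refine ⟨z₀, θ₀, fun k => if hk : k ∈ Q then p (Sum.inr (some ⟨k, hk⟩)) else 0, ?_⟩
  have hcomp := Pool.Agent.Q166.EG.pt_comp hp (Sum.elim
    (![Sum.inl (some 0), Sum.inl (some 1), Sum.inl (some 2), Sum.inl none] :
      Fin 4 → Option (Fin 3) ⊕ Option Q) (fun k : Q => Sum.inr (some k)))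
  have e1 : Sum.elim ![z₀, θ₀, Complex.exp z₀, Complex.exp θ₀]
      (fun k : Q => if hk : (k : E) ∈ Q then p (Sum.inr (some ⟨k, hk⟩)) else 0) =
      fun i => p (Sum.elim
        (![Sum.inl (some 0), Sum.inl (some 1), Sum.inl (some 2), Sum.inl none] :
          Fin 4 → Option (Fin 3) ⊕ Option Q) (fun k : Q => Sum.inr (some k)) i) := by
    funext i
    rcases i with i | k
    · fin_cases i
      · exact (hp1 (some 0)).symm
      · exact (hp1 (some 1)).symm
      · exact (hp1 (some 2)).symm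
      · exact (hp1 none).symm
    · simp
  have e2 : Sum.elim ![z, θ, y, w] (fun k : Q => (k : E)) =
      fun i => Sum.elim (oe w ![z, θ, y]) (fun o : Option Q => o.elim (1 : E) (fun k => (k : E)))
        (Sum.elim
        (![Sum.inl (some 0), Sum.inl (some 1), Sum.inl (some 2), Sum.inl none] :
          Fin 4 → Option (Fin 3) ⊕ Option Q) (fun k : Q => Sum.inr (some k)) i) := by
    funext i
    rcases i with i | k
    · fin_cases i <;> rfl
    · rfl
  rw [e1, e2]
  exact hcomp

end Pool.Agent.H249.EX
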